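import Pool.Agent.H77.RZ.Stmts
import Pool.Agent.H33.AVS.NGH
import Pool.Agent.H33.AVS.EXH

/-!
# PL: the lattice attached to a unit class times a singular class
-/

set_option autoImplicit false

namespace Pool.RZ

open Polynomial Matrix Pool.AVR Pool.AVS

namespace PL

theorem smul_mk {K : Type} [Field K] (a b c x : K) (q : K[X]) :
    x • AdjoinRoot.mk (cub a b c) q = AdjoinRoot.mk (cub a b c) (C x * q) := by
  rw [Algebra.smul_def, AdjoinRoot.algebraMap_eq, ← AdjoinRoot.mk_C, ← map_mul]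

theorem gm_quad {K : Type} [Field K] (a b c : K) (e : Fin 3 → K[X]) (i : Fin 3) (u v w : K)
    (h : e i = C u * X ^ 2 + C v * X + C w) (k : Fin 3) :
    NGH.gm a b c e k i = ![w, v, u] k := by
  have h1 : AdjoinRoot.mk (cub a b c) (e i) = ∑ k, (![w, v, u] k) • NGH.pb a b c k := by
    rw [Fin.sum_univ_three, NGH.pb_apply, NGH.pb_apply, NGH.pb_apply, smul_mk, smul_mk, smul_mk,
      ← map_add, ← map_add, h]
    refine congrArg _ ?_
    change C u * X ^ 2 + C v * X + C w = C w * X ^ 0 + C v * X ^ 1 + C u * X ^ 2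
    ring
  unfold NGH.gm
  rw [Matrix.of_apply, h1]
  exact congrFun (Module.Basis.repr_sum_self _ _) k

theorem tau_C_mul {K : Type} [Field K] (a b c x : K) (p : K[X]) :
    tau a b c (C x * p) = x * tau a b c p := by
  rw [NGH.tau_mk, NGH.tau_mk, map_mul, AdjoinRoot.mk_C, ← AdjoinRoot.algebraMap_eq,
    ← Algebra.smul_def, map_smul, smul_eq_mul]

theorem key {K : Type} [Field K] (a b c u D : K) :
    (C u - C D * X) * (C (D ^ 2) * X ^ 2 + C (u * D + a * D ^ 2) * X +
      C (u ^ 2 + a * u * D + b * D ^ 2)) =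
      C (u ^ 3 + a * u ^ 2 * D + b * u * D ^ 2 + c * D ^ 3) - C (D ^ 3) * cub a b c := by
  rw [cub]
  simp only [C_add, C_mul, C_pow]
  ring

/-- The lattice over a field. -/
theorem lat {K : Type} [Field K] (a b c u D w r : K) (P : K[X]) (i : ℕ) (hw : w ≠ 0)
    (hD : D ≠ 0) (hg : 3 * u ^ 2 + 2 * a * u * D + b * D ^ 2 ≠ 0)
    (hPhi : u ^ 3 + a * u ^ 2 * D + b * u * D ^ 2 + c * D ^ 3 = w ^ (2 * i + 1) * r ^ 2) :
    ∃ g : Matrix (Fin 3) (Fin 3) K, g.det ≠ 0 ∧
      (gᵀ * gr0 a b c (P * (C w * (C u - C D * X))) * g) 0 0 = r ^ 2 * tau a b c (P *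
        (C (D ^ 2) * X ^ 2 + C (u * D + a * D ^ 2) * X + C (u ^ 2 + a * u * D + b * D ^ 2))) ∧
      (∀ j : Fin 2, (gᵀ * gr0 a b c (P * (C w * (C u - C D * X))) * g) 0 j.succ =
        w ^ (i + 1) * r ^ 2 * tau a b c (P * (C u - C D * X) * X ^ (j : ℕ))) ∧
      ∀ j k : Fin 2, (gᵀ * gr0 a b c (P * (C w * (C u - C D * X))) * g) j.succ k.succ =
        w * tau a b c (P * (C u - C D * X) ^ 3 * X ^ ((j : ℕ) + (k : ℕ))) := by
  have hk := key a b c u D
  obtain ⟨A, hA⟩ : ∃ A, A = C (D ^ 2) * X ^ 2 + C (u * D + a * D ^ 2) * X +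
      C (u ^ 2 + a * u * D + b * D ^ 2) := ⟨_, rfl⟩
  obtain ⟨B, hB⟩ : ∃ B, B = C u - C D * X := ⟨_, rfl⟩
  rw [← hA, ← hB, hPhi] at hk
  rw [← hA, ← hB]
  obtain ⟨x, hx⟩ : ∃ x : K, x = (w ^ (i + 1))⁻¹ := ⟨_, rfl⟩
  have hx1 : x * w ^ (i + 1) = 1 := by
    rw [hx]
    exact inv_mul_cancel₀ (pow_ne_zero _ hw)
  have hx0 : x ≠ 0 := by
    intro h0
    rw [h0, zero_mul] at hx1
    exact zero_ne_one hx1
  obtain ⟨e, he⟩ : ∃ e : Fin 3 → K[X], e = ![C x * A, B, B * X] := ⟨_, rfl⟩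
  have e0 : e 0 = C x * A := by rw [he]; rfl
  have e1 : e 1 = B := by rw [he]; rfl
  have e2 : e 2 = B * X := by rw [he]; rfl
  have g0 := gm_quad a b c e 0 (x * D ^ 2) (x * (u * D + a * D ^ 2))
    (x * (u ^ 2 + a * u * D + b * D ^ 2)) (by
      rw [e0, hA]
      simp only [C_mul, C_add, C_pow]
      ring)
  have g1 := gm_quad a b c e 1 0 (-D) u (by
      rw [e1, hB, C_0, C_neg]
      ring)
  have g2 := gm_quad a b c e 2 (-D) u 0 (by
      rw [e2, hB, C_0, C_neg]
      ring)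
  have hgram := NGH.gram_eq a b c (P * (C w * B)) e
  have hent : ∀ j k, ((NGH.gm a b c e)ᵀ * gr0 a b c (P * (C w * B)) * NGH.gm a b c e) j k =
      tau a b c (e j * e k * (P * (C w * B))) := by
    intro j k
    rw [← hgram]
    rfl
  have hrec : C x * C (w ^ (i + 1)) = (1 : K[X]) := by
    rw [← C_mul, hx1, C_1]
  refine ⟨NGH.gm a b c e, ?_, ?_, ?_, ?_⟩
  · rw [Matrix.det_fin_three, g0, g0, g0, g1, g1, g1, g2, g2, g2]
    have : x * (D ^ 2 * (3 * u ^ 2 + 2 * a * u * D + b * D ^ 2)) ≠ 0 :=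
      mul_ne_zero hx0 (mul_ne_zero (pow_ne_zero _ hD) hg)
    intro h0
    apply this
    simp only [Matrix.cons_val_zero, Matrix.cons_val_one, Matrix.cons_val] at h0
    linear_combination h0
  · rw [hent, ← tau_C_mul, e0]
    apply EXH.tau_congr
    refine ⟨-(P * A * C (x ^ 2 * w) * C (D ^ 3)), ?_⟩
    simp only [C_mul, C_pow] at hk hrec ⊢
    linear_combination (P * A * C x ^ 2 * C w) * hk +
      (P * A * C r ^ 2) * (C x * C w ^ (i + 1) + 1) * hrec
  · intro j
    have hj : e j.succ = B * X ^ (j : ℕ) := by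
      fin_cases j
      · exact e1.trans (by simp)
      · exact e2.trans (by simp)
    rw [hent, ← tau_C_mul, e0, hj]
    apply EXH.tau_congr
    refine ⟨-(P * B * X ^ (j : ℕ) * C (x * w) * C (D ^ 3)), ?_⟩
    simp only [C_mul, C_pow] at hk hrec ⊢
    linear_combination (P * B * X ^ (j : ℕ) * C x * C w) * hk +
      (P * B * X ^ (j : ℕ) * C r ^ 2) * (C w ^ (i + 1)) * hrec
  · intro j k
    have hj : ∀ j : Fin 2, e j.succ = B * X ^ (j : ℕ) := by
      intro j
      fin_cases j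
      · exact e1.trans (by simp)
      · exact e2.trans (by simp)
    rw [hent, ← tau_C_mul, hj, hj]
    congr 1
    rw [pow_add]
    ring

end PL

open PL in
theorem pl_thm (hLM : LMStmt) (hNUN : NUNStmt) : PLStmt := by
  intro F _ f c h h' s s' p u D v i hirr h1 hp h2 hD hv hg hPhi
  have hpi : Irreducible (pc c) := irreducible_X_sub_C c
  have hpi0 : rf (pc c) ≠ 0 := by
    intro h0
    exact hpi.ne_zero ((map_eq_zero_iff _ (IsFractionRing.injective F[X] (RatFunc F))).1 h0)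
  have hD0 : rf D ≠ 0 := by
    intro h0
    exact hD (((map_eq_zero_iff _ (IsFractionRing.injective F[X] (RatFunc F))).1 h0) ▸
      dvd_zero _)
  have hg0 : rf (3 * u ^ 2 + 2 * f.1 * u * D + f.2.1 * D ^ 2) ≠ 0 := by
    intro h0
    exact hg (((map_eq_zero_iff _ (IsFractionRing.injective F[X] (RatFunc F))).1 h0) ▸
      dvd_zero _)
  have hdeg : (cubK f).degree = 3 := COR.cub_degree _ _ _
  have hs : ¬ cubK f ∣ s := by
    intro h0
    have h3 : cubK f ∣ lf p := by
      have h4 : cubK f ∣ h * s ^ 2 := (dvd_pow h0 two_ne_zero).mul_left _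
      have := dvd_sub h4 h1
      rwa [sub_sub_cancel] at this
    obtain ⟨ν, hν, _, hν2⟩ := (hNUN F f p).2
    have : Nontrivial (AdjoinRoot (cubK f)) := AdjoinRoot.nontrivial _ (by
      rw [hdeg]
      decide)
    have : Module.Finite (RatFunc F) (AdjoinRoot (cubK f)) :=
      Module.Finite.of_basis (NGH.pb _ _ _)
    rw [AdjoinRoot.mk_eq_zero.2 h3, Algebra.norm_zero] at hν
    have h5 : ν = 0 := (map_eq_zero_iff _ (IsFractionRing.injective F[X] (RatFunc F))).1 hν.symm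
    exact (hν2 (pc c) hpi).1 hp (h5 ▸ dvd_zero _)
  have hs' : ¬ cubK f ∣ s' := by
    intro h0
    have h3 : cubK f ∣ lf (C (pc c) * (C u - C D * X)) := by
      have h4 : cubK f ∣ h' * s' ^ 2 := (dvd_pow h0 two_ne_zero).mul_left _
      have := dvd_sub h4 h2
      rwa [sub_sub_cancel] at this
    have h6 : lf (C (pc c) * (C u - C D * X)) ≠ 0 := by
      intro h7
      have h8 := congrArg (fun q => q.coeff 1) h7
      simp only [Polynomial.map_mul, Polynomial.map_sub, map_C, map_X, coeff_C_mul, coeff_sub,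
        coeff_zero] at h8
      rw [coeff_C_succ, coeff_X_one, mul_one, zero_sub, mul_neg, neg_eq_zero] at h8
      exact (mul_ne_zero hpi0 hD0) h8
    have h7 := Polynomial.degree_le_of_dvd h3 h6
    rw [hdeg] at h7
    have h9 : (lf (C (pc c) * (C u - C D * X))).degree ≤ 1 := by
      simp only [Polynomial.map_mul, Polynomial.map_sub, map_C, map_X]
      compute_degree
    have := h7.trans h9
    exact absurd this (by decide)
  have hcop : IsCoprime (s * s') (cubK f) := by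
    rw [isCoprime_comm]
    exact (hirr.coprime_iff_not_dvd).2 (fun h3 => (hirr.prime.dvd_or_dvd h3).elim hs hs')
  obtain ⟨g₁, hg₁, hg₁e, _⟩ := hLM (RatFunc F) (kf f).1 (kf f).2.1 (kf f).2.2 (h * h')
    (lf p * (C (rf (pc c)) * (C (rf u) - C (rf D) * X))) (s * s') hcop (by
      change cubK f ∣ _
      have h3 : lf (C (pc c) * (C u - C D * X)) =
          C (rf (pc c)) * (C (rf u) - C (rf D) * X) := by
        simp only [Polynomial.map_mul, Polynomial.map_sub, map_C, map_X]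
      rw [← h3]
      have h4 : h * h' * (s * s') ^ 2 - lf p * lf (C (pc c) * (C u - C D * X)) =
          (h * s ^ 2 - lf p) * (h' * s' ^ 2) +
            lf p * (h' * s' ^ 2 - lf (C (pc c) * (C u - C D * X))) := by
        ring
      rw [h4]
      exact dvd_add (h1.mul_right _) (h2.mul_left _))
  obtain ⟨g₂, hg₂, hg₂0, hg₂1, hg₂2⟩ := lat (kf f).1 (kf f).2.1 (kf f).2.2 (rf u) (rf D)
    (rf (pc c)) (rf v) (lf p) i hpi0 hD0 (by
      have h3 : rf (3 * u ^ 2 + 2 * f.1 * u * D + f.2.1 * D ^ 2) = 3 * rf u ^ 2 +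
          2 * (kf f).1 * rf u * rf D + (kf f).2.1 * rf D ^ 2 := by
        rw [rf, map_add, map_add, map_mul, map_mul, map_mul, map_mul, map_mul, map_pow, map_pow,
          map_ofNat, map_ofNat]
        rfl
      rwa [h3] at hg0) (by
      have := congrArg rf hPhi
      simpa [rf, kf] using this)
  have hG : (g₁ * g₂)ᵀ * g0 f (h * h') * (g₁ * g₂) =
      g₂ᵀ * gr0 (kf f).1 (kf f).2.1 (kf f).2.2
        (lf p * (C (rf (pc c)) * (C (rf u) - C (rf D) * X))) * g₂ := by
    rw [← hg₁e, Matrix.transpose_mul]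
    simp only [Matrix.mul_assoc]
  refine ⟨g₁ * g₂, ?_, ?_, ?_, ?_⟩
  · rw [Matrix.det_mul]
    exact mul_ne_zero hg₁ hg₂
  · rw [hG, hg₂0]
    congr 2
    simp [rf, kf]
  · intro j
    rw [hG, hg₂1]
    congr 2
    simp [rf]
  · intro j k
    rw [hG, hg₂2]
    congr 2
    simp [rf]

end Pool.RZ
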