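import Pool.Agent.H20.RZ.PU

/-!
# PT: at a simple divisor of `d` the class of a point is trivial, or comes from a singular point
-/

set_option autoImplicit false

namespace Pool.RZ

open Polynomial Matrix Pool.AVR Pool.AVS

open PU in
theorem pt_thm (hDEN : DENStmt) : PTStmt := by
  intro F _ h2 f d x y c hon hy hd hd2
  have hP : Irreducible (pc c) := irreducible_X_sub_C c
  have hpr : Prime (pc c) := hP.prime
  obtain ⟨u, v, w, hw, hcop, hx, hyv⟩ := hDEN F _ _ _ x y hon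
  have hw0 : rf w ≠ 0 := rf_ne hw
  have hv : v ≠ 0 := by
    rintro rfl
    apply hy
    rw [hyv, map_zero, zero_div]
  obtain ⟨d', hd'⟩ := hd
  obtain ⟨D, hD⟩ : ∃ D, D = d' * w ^ 2 := ⟨_, rfl⟩
  have hPhi : u ^ 3 + f.1 * u ^ 2 * (pc c * D) + f.2.1 * u * (pc c * D) ^ 2 +
      f.2.2 * (pc c * D) ^ 3 = v ^ 2 := by
    apply IsFractionRing.injective F[X] (RatFunc F)
    have h3 : y ^ 2 = x ^ 3 + rf (d * f.1) * x ^ 2 + rf (d ^ 2 * f.2.1) * x +
      rf (d ^ 3 * f.2.2) := hon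
    rw [hx, hyv, hd'] at h3
    rw [hD]
    simp only [rf, map_add, map_mul, map_pow] at h3 ⊢
    change rf w ≠ 0 at hw0
    field_simp at h3
    linear_combination -h3
  have hBx : (C x - C (rf d) * X) * C (rf w) ^ 2 = lf (C u - C (pc c * D) * X) := by
    simp only [Polynomial.map_sub, Polynomial.map_mul, map_C, map_X]
    have h3 : x * rf w ^ 2 = rf u := by
      rw [hx]
      field_simp
    have h4 : rf (pc c * D) = rf d * rf w ^ 2 := by
      rw [hD, hd']
      simp only [rf, map_mul, map_pow]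
      ring
    change _ = C (rf u) - C (rf (pc c * D)) * X
    rw [← h3, h4]
    simp only [C_mul, C_pow]
    ring
  by_cases hPv : pc c ∣ v
  · right
    have hPw : ¬ pc c ∣ w := fun h3 => hP.not_isUnit (hcop.isUnit_of_dvd' h3 hPv)
    have hPu : pc c ∣ u := by
      apply hpr.dvd_of_dvd_pow (n := 3)
      have h3 : u ^ 3 = v ^ 2 - pc c * (f.1 * u ^ 2 * D + f.2.1 * u * D * (pc c * D) +
        f.2.2 * D * (pc c * D) ^ 2) := by
        linear_combination hPhi
      rw [h3]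
      exact dvd_sub (dvd_pow hPv two_ne_zero) (dvd_mul_right _ _)
    obtain ⟨u₁, hu₁⟩ := hPu
    have hPd' : ¬ pc c ∣ d' := by
      rintro ⟨d'', rfl⟩
      exact hd2 ⟨d'', by rw [hd']; ring⟩
    have hPD : ¬ pc c ∣ D := by
      rw [hD]
      intro h3
      rcases hpr.dvd_or_dvd h3 with h4 | h4
      · exact hPd' h4
      · exact hPw (hpr.dvd_of_dvd_pow h4)
    have hfm : FiniteMultiplicity (pc c) v := FiniteMultiplicity.of_not_isUnit hP.not_isUnit hv
    obtain ⟨v₁, hv₁, hPv₁⟩ := hfm.exists_eq_pow_mul_and_not_dvd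
    obtain ⟨j, hj⟩ : ∃ j, j = multiplicity (pc c) v := ⟨_, rfl⟩
    rw [← hj] at hv₁
    have hPhi1 : pc c ^ 3 * (u₁ ^ 3 + f.1 * u₁ ^ 2 * D + f.2.1 * u₁ * D ^ 2 + f.2.2 * D ^ 3) =
        pc c ^ (2 * j) * v₁ ^ 2 := by
      rw [hu₁, hv₁] at hPhi
      rw [pow_mul']
      linear_combination hPhi
    have hj2 : 2 ≤ j := by
      by_contra hlt
      push Not at hlt
      have h3 : pc c ∣ v₁ ^ 2 := by
        have h4 : pc c ^ (2 * j + 1) ∣ pc c ^ (2 * j) * v₁ ^ 2 := by
          rw [← hPhi1]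
          exact (pow_dvd_pow _ (by omega)).mul_right _
        rw [pow_succ] at h4
        exact (mul_dvd_mul_iff_left (pow_ne_zero _ hP.ne_zero)).1 h4
      exact hPv₁ (hpr.dvd_of_dvd_pow h3)
    obtain ⟨i, rfl⟩ : ∃ i, j = i + 2 := ⟨j - 2, by omega⟩
    refine ⟨C (rf w), u₁, D, v₁, i, ?_, hPD, hPv₁, ?_⟩
    · rw [hBx]
      have h3 : C u - C (pc c * D) * X = C (pc c) * (C u₁ - C D * X) := by
        rw [hu₁, C_mul, C_mul]
        ring
      rw [h3, sub_self]
      exact dvd_zero _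
    · apply mul_left_cancel₀ (pow_ne_zero 3 hP.ne_zero)
      rw [hPhi1]
      ring
  · left
    have hc : IsCoprime (pc c) v := (hP.coprime_iff_not_dvd).2 hPv
    obtain ⟨r, v', hrv⟩ := hc
    refine ⟨C (rf w) * C (rf (u * v')), C (-r * (v * v' + 1) -
      D * (f.1 * u ^ 2 + f.2.1 * u * (pc c * D) + f.2.2 * (pc c * D) ^ 2) * v' ^ 2) -
      C (D * (u * v') ^ 2) * X, ?_⟩
    have h3 : (C x - C (rf d) * X) * (C (rf w) * C (rf (u * v'))) ^ 2 =
        lf ((C u - C (pc c * D) * X) * C (u * v') ^ 2) := by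
      rw [mul_pow, ← mul_assoc, hBx]
      simp [lf, rf]
    rw [h3]
    have h4 : (C u - C (pc c * D) * X) * C (u * v') ^ 2 = 1 + C (pc c) * (C (-r * (v * v' + 1) -
      D * (f.1 * u ^ 2 + f.2.1 * u * (pc c * D) + f.2.2 * (pc c * D) ^ 2) * v' ^ 2) -
      C (D * (u * v') ^ 2) * X) := by
      have h5 : u * (u * v') ^ 2 = 1 + pc c * (-r * (v * v' + 1) -
        D * (f.1 * u ^ 2 + f.2.1 * u * (pc c * D) + f.2.2 * (pc c * D) ^ 2) * v' ^ 2) := by
        linear_combination v' ^ 2 * hPhi + (v * v' + 1) * hrv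
      have h6 := congrArg (C : F[X] → F[X][X]) h5
      simp only [C_mul, C_add, C_1, C_pow] at h6 ⊢
      linear_combination h6
    rw [h4, sub_self]
    exact dvd_zero _

end Pool.RZ
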