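import Pool.Agent.H77.RZ.Stmts

/-!
# PU: outside the divisors of `d` the class of a point of the twist is the class of a unit
-/

set_option autoImplicit false

namespace Pool.RZ

open Polynomial Matrix Pool.AVR Pool.AVS

namespace PU

/-- The adjugate of `u - D X`. -/
noncomputable def adj {R : Type} [CommRing R] (a b u D : R) : R[X] :=
  C (D ^ 2) * X ^ 2 + C (u * D + a * D ^ 2) * X + C (u ^ 2 + a * u * D + b * D ^ 2)

theorem key {R : Type} [CommRing R] (a b c u D : R) :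
    (C u - C D * X) * adj a b u D =
      C (u ^ 3 + a * u ^ 2 * D + b * u * D ^ 2 + c * D ^ 3) - C (D ^ 3) * cub a b c := by
  rw [cub, adj]
  simp only [C_add, C_mul, C_pow]
  ring

theorem key2 {R : Type} [CommRing R] (a b u D : R) :
    adj a b u D = C (3 * u ^ 2 + 2 * a * u * D + b * D ^ 2) -
      C (3 * u + a * D) * (C u - C D * X) + (C u - C D * X) ^ 2 := by
  rw [adj]
  simp only [C_add, C_mul, C_pow, C_ofNat]
  ring

theorem cubK_eq {F : Type} [Field F] (f : F[X] × F[X] × F[X]) : cubK f = lf (cubP f) := by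
  simp [cubK, cubP, cub]

theorem rf_ne {F : Type} [Field F] {p : F[X]} (h : p ≠ 0) : rf p ≠ 0 := by
  intro h0
  exact h ((map_eq_zero_iff _ (IsFractionRing.injective F[X] (RatFunc F))).1 h0)

end PU

open PU in
theorem pu_thm (hDEN : DENStmt) (hDQ : DQStmt) : PUStmt := by
  intro F _ h2 f d x y hd hon hy P hP hPd hdisc
  obtain ⟨u, v, w, hw, hcop, hx, hyv⟩ := hDEN F _ _ _ x y hon
  have hw0 : rf w ≠ 0 := rf_ne hw
  have hv : v ≠ 0 := by
    rintro rfl
    apply hy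
    rw [hyv, map_zero, zero_div]
  have hv0 : rf v ≠ 0 := rf_ne hv
  obtain ⟨D, hD⟩ : ∃ D, D = d * w ^ 2 := ⟨_, rfl⟩
  have hPhi : u ^ 3 + f.1 * u ^ 2 * D + f.2.1 * u * D ^ 2 + f.2.2 * D ^ 3 = v ^ 2 := by
    apply IsFractionRing.injective F[X] (RatFunc F)
    have h3 : y ^ 2 = x ^ 3 + rf (d * f.1) * x ^ 2 + rf (d ^ 2 * f.2.1) * x +
      rf (d ^ 3 * f.2.2) := hon
    rw [hx, hyv] at h3
    rw [hD]
    simp only [rf, map_add, map_mul, map_pow] at h3 ⊢
    change rf w ≠ 0 at hw0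
    field_simp at h3
    linear_combination -h3
  have hk := key f.1 f.2.1 f.2.2 u D
  have hk2 := key2 f.1 f.2.1 u D
  obtain ⟨A, hA⟩ : ∃ A, A = adj f.1 f.2.1 u D := ⟨_, rfl⟩
  obtain ⟨B, hB⟩ : ∃ B, B = C u - C D * X := ⟨_, rfl⟩
  rw [← hA, ← hB, hPhi] at hk
  rw [← hA, ← hB] at hk2
  have hBx : (C x - C (rf d) * X) * C (rf w) ^ 2 = lf B := by
    rw [hB]
    simp only [Polynomial.map_sub, Polynomial.map_mul, map_C, map_X]
    have h3 : x * rf w ^ 2 = rf u := by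
      rw [hx]
      field_simp
    have h4 : rf D = rf d * rf w ^ 2 := by
      rw [hD, rf, map_mul, map_pow]
    change _ = C (rf u) - C (rf D) * X
    rw [← h3, h4]
    simp only [C_mul, C_pow]
    ring
  have hkK : lf B * lf A = C (rf v) ^ 2 - C (rf D) ^ 3 * cubK f := by
    have := congrArg lf hk
    rw [cubK_eq]
    simpa [lf, rf, cubP] using this
  by_cases hPv : P ∣ v
  · have hPw : ¬ P ∣ w := fun h3 => hP.not_isUnit (hcop.isUnit_of_dvd' h3 hPv)
    have hPD : ¬ P ∣ D := by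
      rw [hD]
      intro h3
      rcases hP.prime.dvd_or_dvd h3 with h4 | h4
      · exact hPd h4
      · exact hPw (hP.prime.dvd_of_dvd_pow h4)
    have hPg : ¬ P ∣ 3 * u ^ 2 + 2 * f.1 * u * D + f.2.1 * D ^ 2 := fun h3 =>
      hdisc (hDQ F P u D f.1 f.2.1 f.2.2 hP hPD (hPhi ▸ pow_dvd_pow_of_dvd hPv 2) h3)
    obtain ⟨g, hg⟩ : ∃ g, g = 3 * u ^ 2 + 2 * f.1 * u * D + f.2.1 * D ^ 2 := ⟨_, rfl⟩
    obtain ⟨l, hl⟩ : ∃ l, l = 3 * u + f.1 * D := ⟨_, rfl⟩
    rw [← hg] at hPg hk2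
    rw [← hl] at hk2
    have hc : IsCoprime P (g ^ 2) := ((hP.coprime_iff_not_dvd).2 hPg).pow_right
    obtain ⟨r, g', hrg⟩ := hc
    obtain ⟨v', hv'⟩ := hPv
    refine ⟨C ((rf v ^ 2)⁻¹) * (C (rf w) * ((C (rf v) + lf B) * lf A)), B + 2 * C v + A, ?_,
      C g' * (C g * (C l - B) + (1 - C l) * A), ?_⟩
    · refine ⟨-(C ((rf v ^ 2)⁻¹) ^ 2 * C (rf D) ^ 3 * (C (rf v) ^ 2 * (2 * C (rf v) + lf B) +
        C (rf v) ^ 2 * (lf A + 2 * C (rf v) + lf B) -
          C (rf D) ^ 3 * cubK f * (2 * C (rf v) + lf B))), ?_⟩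
      have h5 : C ((rf v ^ 2)⁻¹) * C (rf v) ^ 2 = (1 : (RatFunc F)[X]) := by
        rw [← C_pow, ← C_mul, inv_mul_cancel₀ (pow_ne_zero _ hv0), C_1]
      have h6 : lf (B + 2 * C v + A) = lf B + 2 * C (rf v) + lf A := by
        simp [lf, rf]
      rw [h6]
      linear_combination (C ((rf v ^ 2)⁻¹) ^ 2 * (C (rf v) + lf B) ^ 2 * lf A ^ 2) * hBx +
        (C ((rf v ^ 2)⁻¹) ^ 2 * (lf A * C (rf v) ^ 2 + (2 * C (rf v) + lf B) *
          (lf B * lf A + (C (rf v) ^ 2 - C (rf D) ^ 3 * cubK f)))) * hkK +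
        (lf A + 2 * C (rf v) + lf B) * (C ((rf v ^ 2)⁻¹) * C (rf v) ^ 2 + 1) * h5
    · refine ⟨-C r + C g' * ((-C g + (1 - C l) - (1 - C l) * (C l - B)) * (C v' * C v) +
        2 * C v' * (C g * (C l - B) + (1 - C l) * A)), ?_⟩
      refine ⟨-(C g' * (-C g + (1 - C l) - (1 - C l) * (C l - B)) * C D ^ 3), ?_⟩
      have h5 : C r * C P + C g' * C g ^ 2 = (1 : F[X][X]) := by
        rw [← C_pow, ← C_mul, ← C_mul, ← C_add, hrg, C_1]
      have h6 : (C v : F[X][X]) = C P * C v' := by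
        rw [hv', C_mul]
      rw [cubP]
      simp only [C_pow] at hk
      linear_combination h5 + C g' * (-C g + (1 - C l) - (1 - C l) * (C l - B)) * hk +
        (C g' * (-C g + (1 - C l) - (1 - C l) * (C l - B)) * C v +
          2 * C g' * (C g * (C l - B) + (1 - C l) * A)) * h6 +
        C g' * (C g + (1 - C l) * A) * hk2
  · have hc : IsCoprime P (v ^ 2) := ((hP.coprime_iff_not_dvd).2 hPv).pow_right
    obtain ⟨r, v', hrv⟩ := hc
    refine ⟨C (rf w), B, ?_, C v' * A, -C r, ?_⟩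
    · rw [hBx, sub_self]
      exact dvd_zero _
    · refine ⟨-(C v' * C (D ^ 3)), ?_⟩
      have h5 : C r * C P + C v' * C v ^ 2 = (1 : F[X][X]) := by
        rw [← C_pow, ← C_mul, ← C_mul, ← C_add, hrv, C_1]
      rw [cubP]
      simp only [C_pow] at hk ⊢
      linear_combination C v' * hk + h5

end Pool.RZ
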