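import Pool.Agent.H20.RZ.PL
import Pool.Agent.H20.RZ.PU

/-!
# TY: a unit class at a place of type `T12` is trivial or `Minus`
-/

set_option autoImplicit false

namespace Pool.RZ

open Polynomial Matrix Pool.AVR Pool.AVS

namespace TY

/-- The coefficient of `X²` in the remainder, over a commutative ring. -/
noncomputable def tauR {R : Type} [CommRing R] (a b c : R) (p : R[X]) : R :=
  (p %ₘ cub a b c).coeff 2

theorem cub_monicR {R : Type} [CommRing R] [Nontrivial R] (a b c : R) : (cub a b c).Monic := by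
  unfold cub
  monicity!

theorem cub_map {R S : Type} [CommRing R] [CommRing S] (φ : R →+* S) (a b c : R) :
    (cub a b c).map φ = cub (φ a) (φ b) (φ c) := by
  simp [cub]

theorem tauR_map {R S : Type} [CommRing R] [Nontrivial R] [CommRing S] (φ : R →+* S) (a b c : R)
    (p : R[X]) : tauR (φ a) (φ b) (φ c) (p.map φ) = φ (tauR a b c p) := by
  unfold tauR
  rw [← cub_map, ← map_modByMonic φ (cub_monicR a b c), coeff_map]

/-- The Gram matrix over a commutative ring. -/
noncomputable def grR {R : Type} [CommRing R] (a b c : R) (h : R[X]) :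
    Matrix (Fin 3) (Fin 3) R :=
  Matrix.of fun i j => tauR a b c (X ^ (i : ℕ) * X ^ (j : ℕ) * h)

theorem grR_map {R S : Type} [CommRing R] [Nontrivial R] [CommRing S] (φ : R →+* S) (a b c : R)
    (p : R[X]) : grR (φ a) (φ b) (φ c) (p.map φ) = (grR a b c p).map φ := by
  ext i j
  rw [Matrix.map_apply, grR, grR, Matrix.of_apply, Matrix.of_apply, ← tauR_map]
  congr 1
  simp

theorem grR_field {K : Type} [Field K] (a b c : K) (h : K[X]) : grR a b c h = gr0 a b c h := rfl

/-- Norms and reduction. -/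
theorem norm_red {F : Type} [Field F] (f : F[X] × F[X] × F[X]) (c : F) (p : F[X][X]) :
    ∃ ν : F[X], Algebra.norm (RatFunc F) (AdjoinRoot.mk (cubK f) (lf p)) = rf ν ∧
      Algebra.norm F (AdjoinRoot.mk (cub (evc c f).1 (evc c f).2.1 (evc c f).2.2)
        (p.map (evalRingHom c))) = ν.eval c := by
  refine ⟨-(grR f.1 f.2.1 f.2.2 p).det, ?_, ?_⟩
  · have h1 := NGH.det_gr0 (kf f).1 (kf f).2.1 (kf f).2.2 (lf p)
    have h2 : gr0 (kf f).1 (kf f).2.1 (kf f).2.2 (lf p) =
        (grR f.1 f.2.1 f.2.2 p).map (algebraMap F[X] (RatFunc F)) :=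
      grR_map (algebraMap F[X] (RatFunc F)) f.1 f.2.1 f.2.2 p
    rw [h2, ← RingHom.mapMatrix_apply, ← RingHom.map_det] at h1
    rw [rf, map_neg, h1, neg_neg]
    rfl
  · have h1 := NGH.det_gr0 (evc c f).1 (evc c f).2.1 (evc c f).2.2 (p.map (evalRingHom c))
    have h2 : gr0 (evc c f).1 (evc c f).2.1 (evc c f).2.2 (p.map (evalRingHom c)) =
        (grR f.1 f.2.1 f.2.2 p).map (evalRingHom c) :=
      grR_map (evalRingHom c) f.1 f.2.1 f.2.2 p
    rw [h2, ← RingHom.mapMatrix_apply, ← RingHom.map_det] at h1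
    rw [eval_neg, ← neg_eq_iff_eq_neg, ← h1]
    rfl

/-- A polynomial which is a square in the field of rational functions is a square. -/
theorem sq_rf {F : Type} [Field F] (ν : F[X]) (h : IsSquare (rf ν)) : IsSquare ν := by
  obtain ⟨r, hr⟩ := h
  have hint : IsIntegral F[X] r := by
    refine ⟨X ^ 2 - C ν, monic_X_pow_sub_C ν two_ne_zero, ?_⟩
    rw [eval₂_sub, eval₂_X_pow, eval₂_C, sub_eq_zero, pow_two]
    exact hr.symm
  obtain ⟨q, hq⟩ := IsIntegrallyClosed.isIntegral_iff.1 hint
  refine ⟨q, IsFractionRing.injective F[X] (RatFunc F) ?_⟩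
  rw [map_mul, hq]
  exact hr

/-- Lifting divisibility modulo `t - c`. -/
theorem lift_red {F : Type} [Field F] (c : F) (p : F[X][X]) (h : p.map (evalRingHom c) = 0) :
    ∃ r : F[X][X], p = C (pc c) * r := by
  apply (C_dvd_iff_dvd_coeff _ _).2
  intro i
  apply dvd_iff_isRoot.2
  have := congrArg (fun q => q.coeff i) h
  rw [coeff_map, coeff_zero] at this
  exact this

end TY

open PU TY in
theorem ty_thm (hSQ : SQStmt) : TYStmt := by
  intro F _ _ h2 f c hT h hN hU
  obtain ⟨s, p, hs, p', r, q, hq⟩ := hU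
  obtain ⟨e, β, γ, hirr, hev⟩ := hT
  obtain ⟨ν, hν, hνc⟩ := norm_red f c p
  have ha : (evc c f).1 = β - e := by rw [hev]
  have hb : (evc c f).2.1 = γ - e * β := by rw [hev]
  have hc : (evc c f).2.2 = -(e * γ) := by rw [hev]
  have hroot : e ^ 3 + (evc c f).1 * e ^ 2 + (evc c f).2.1 * e + (evc c f).2.2 = 0 := by
    rw [ha, hb, hc]
    ring
  by_cases hsq : IsSquare ((p.eval (C e)).eval c)
  · left
    have hpe : (p.map (evalRingHom c)).eval e = (p.eval (C e)).eval c := by
      rw [eval_map]
      have := Polynomial.hom_eval₂ p (RingHom.id F[X]) (evalRingHom c) (C e)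
      simpa [eval₂_id] using this.symm
    -- the reduction of `p` is a unit
    have hqc : (p.map (evalRingHom c)) * (p'.map (evalRingHom c)) - 1 =
        cub (β - e) (γ - e * β) (-(e * γ)) * (q.map (evalRingHom c)) := by
      have h3 := congrArg (Polynomial.map (evalRingHom c)) hq
      have h4 : (cubP f).map (evalRingHom c) = cub (β - e) (γ - e * β) (-(e * γ)) := by
        rw [cubP, TY.cub_map, ← ha, ← hb, ← hc]
        rfl
      have h5 : evalRingHom c (pc c) = 0 := by simp [pc]
      rw [Polynomial.map_mul, h4, Polynomial.map_sub, Polynomial.map_sub, Polynomial.map_mul,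
        Polynomial.map_mul, map_C, h5, C_0, zero_mul, sub_zero, Polynomial.map_one] at h3
      exact h3
    have hpe0 : (p.map (evalRingHom c)).eval e ≠ 0 := by
      intro h0
      have h3 := congrArg (Polynomial.eval e) hqc
      rw [eval_sub, eval_mul, h0, zero_mul, eval_one, eval_mul] at h3
      have h4 : (cub (β - e) (γ - e * β) (-(e * γ))).eval e = 0 := by
        simp [cub]
        ring
      rw [h4, zero_mul, zero_sub] at h3
      exact one_ne_zero (neg_eq_zero.1 h3)
    have hNp : IsSquare ν := by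
      apply sq_rf
      rw [← hν]
      have h3 : AdjoinRoot.mk (cubK f) (lf p) = AdjoinRoot.mk (cubK f) h *
          AdjoinRoot.mk (cubK f) s ^ 2 := by
        rw [← map_pow, ← map_mul, eq_comm, ← sub_eq_zero, ← map_sub]
        exact AdjoinRoot.mk_eq_zero.2 hs
      rw [h3, map_mul, map_pow]
      exact hN.mul (IsSquare.sq _)
    obtain ⟨w, w', hw⟩ := hSQ F h2 e β γ hirr (p.map (evalRingHom c)) hpe0 (by rwa [hpe]) (by
      rw [ha, hb, hc] at hνc
      rw [hνc]
      exact hNp.map (evalRingHom c))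
    have hC : ∀ g : F[X], (g.map (C : F →+* F[X])).map (evalRingHom c) = g := by
      intro g
      rw [Polynomial.map_map]
      have : (evalRingHom c).comp (C : F →+* F[X]) = RingHom.id F := by
        ext x
        simp
      rw [this, Polynomial.map_id]
    obtain ⟨R, hR⟩ := lift_red c (p - (w.map C) ^ 2 - cubP f * w'.map C) (by
      have h4 : (cubP f).map (evalRingHom c) = cub (β - e) (γ - e * β) (-(e * γ)) := by
        rw [cubP, TY.cub_map, ← ha, ← hb, ← hc]
        rfl
      rw [Polynomial.map_sub, Polynomial.map_sub, Polynomial.map_pow, Polynomial.map_mul, hC, hC,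
        h4, hw, sub_self])
    refine ⟨s * lf (w.map C * p'), 2 * r + C (pc c) * r ^ 2 - p * p' ^ 2 * R +
      2 * r * cubP f * q, ?_⟩
    have h5 : p * (w.map C * p') ^ 2 = 1 + C (pc c) * (2 * r + C (pc c) * r ^ 2 -
        p * p' ^ 2 * R + 2 * r * cubP f * q) +
        cubP f * (2 * q + cubP f * q ^ 2 - p * p' ^ 2 * w'.map C) := by
      linear_combination (-(p * p' ^ 2)) * hR + (p * p' + 1 + C (pc c) * r + cubP f * q) * hq
    have h6 : h * (s * lf (w.map C * p')) ^ 2 -
        lf (1 + C (pc c) * (2 * r + C (pc c) * r ^ 2 - p * p' ^ 2 * R +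
          2 * r * cubP f * q)) = (h * s ^ 2 - lf p) * lf (w.map C * p') ^ 2 +
        lf (p * (w.map C * p') ^ 2 - (1 + C (pc c) * (2 * r + C (pc c) * r ^ 2 -
          p * p' ^ 2 * R + 2 * r * cubP f * q))) := by
      generalize w.map C * p' = W
      generalize 1 + C (pc c) * (2 * r + C (pc c) * r ^ 2 - p * p' ^ 2 * R +
        2 * r * cubP f * q) = Z
      simp only [lf, Polynomial.map_sub, Polynomial.map_mul, Polynomial.map_pow]
      ring
    rw [h6]
    refine dvd_add (hs.mul_right _) ?_
    rw [h5, add_sub_cancel_left, cubK_eq, lf, lf, Polynomial.map_mul]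
    exact dvd_mul_right _ _
  · right
    exact ⟨s, p, e, hs, ⟨p', r, q, hq⟩, hroot, hsq⟩

end Pool.RZ
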